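import Mathlib

/-!
# The `L_1`-discrepancy suffers from the curse of dimensionality

The key inequality: for a nonnegative integer `a`, `N ≥ 1`, `T ≥ 0` and `0 < s ≤ 1`
one has `|a / N - T| ≥ T - N ^ s * T ^ (1 + s)`.
-/

open MeasureTheory Set Filter

namespace Pool.Agent.Results.MP_4b7d36_an.SqrtExpCurse

/-- The local discrepancy function: the fraction of the points in the box `[0,t)` minus the volume
`t_1 ⋯ t_d` of the box (for the empty point set `N = 0` the fraction is `0`). -/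
noncomputable def localDisc {d N : ℕ} (x : Fin N → Fin d → ℝ) (t : Fin d → ℝ) : ℝ :=
  (Nat.card {k : Fin N // ∀ i, x k i < t i} : ℝ) / N - ∏ i, t i

/-- The `L_1`-discrepancy of the points `x_1, …, x_N`. -/
noncomputable def L1Disc {d N : ℕ} (x : Fin N → Fin d → ℝ) : ℝ :=
  ∫ t in Icc (0 : Fin d → ℝ) 1, |localDisc x t|

/-- The minimal `L_1`-discrepancy of `N` points in `[0,1)^d`. -/
noncomputable def disc (N d : ℕ) : ℝ :=
  ⨅ x : {x : Fin N → Fin d → ℝ // ∀ k i, x k i ∈ Ico (0 : ℝ) 1}, L1Disc x.1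

/-- The inverse of the minimal `L_1`-discrepancy (`⊤` if there were no such `N`). -/
noncomputable def invDisc (ε : ℝ) (d : ℕ) : ℕ∞ :=
  ⨅ (N : ℕ) (_ : disc N d ≤ ε * disc 0 d), (N : ℕ∞)

lemma vol_eq (d : ℕ) : (volume : Measure (Fin d → ℝ)).restrict (Icc 0 1) =
    Measure.pi (fun _ : Fin d => (volume : Measure ℝ).restrict (Icc 0 1)) := by
  rw [← Measure.restrict_pi_pi, volume_pi]
  congr 1
  rw [← Set.pi_univ_Icc]
  rfl

lemma integral_Icc_rpow {s : ℝ} (hs : 0 ≤ s) :
    ∫ y in Icc (0 : ℝ) 1, y ^ s = 1 / (1 + s) := by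
  rw [integral_Icc_eq_integral_Ioc, ← intervalIntegral.integral_of_le zero_le_one,
    integral_rpow (Or.inl (by linarith))]
  rw [Real.one_rpow, Real.zero_rpow (by linarith)]
  simp [add_comm]

/-- `∫ ∏ t_i ^ s = (1 / (1 + s)) ^ d`. -/
lemma integral_prod_rpow {s : ℝ} (hs : 0 ≤ s) (d : ℕ) :
    ∫ t in Icc (0 : Fin d → ℝ) 1, ∏ i, (t i) ^ s = (1 / (1 + s)) ^ d := by
  rw [vol_eq, integral_fintype_prod_eq_prod (fun _ : Fin d => fun y : ℝ => y ^ s)]
  simp [integral_Icc_rpow hs]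

lemma integral_prod (d : ℕ) :
    ∫ t in Icc (0 : Fin d → ℝ) 1, ∏ i, t i = (1 / 2) ^ d := by
  have h := integral_prod_rpow (s := 1) zero_le_one d
  norm_num at h
  simpa using h

lemma finite_vol (d : ℕ) : IsFiniteMeasure ((volume : Measure (Fin d → ℝ)).restrict (Icc 0 1)) := by
  refine ⟨?_⟩
  rw [Measure.restrict_apply MeasurableSet.univ, univ_inter]
  exact isCompact_Icc.measure_lt_top

lemma measurable_count {d N : ℕ} (x : Fin N → Fin d → ℝ) :
    Measurable (fun t : Fin d → ℝ => (Nat.card {k : Fin N // ∀ i, x k i < t i} : ℝ)) := by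
  classical
  have h : (fun t : Fin d → ℝ => (Nat.card {k : Fin N // ∀ i, x k i < t i} : ℝ)) =
      fun t => ∑ k : Fin N, (Set.indicator {t : Fin d → ℝ | ∀ i, x k i < t i} (fun _ => (1 : ℝ)) t)
      := by
    funext t
    rw [Nat.card_eq_fintype_card, Fintype.card_subtype, Finset.card_filter]
    push_cast
    refine Finset.sum_congr rfl fun k _ => ?_
    simp [Set.indicator_apply]
  rw [h]
  refine Finset.measurable_sum _ fun k _ => ?_
  refine Measurable.indicator measurable_const ?_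
  have : {t : Fin d → ℝ | ∀ i, x k i < t i} = ⋂ i, {t : Fin d → ℝ | x k i < t i} := by
    ext t; simp
  rw [this]
  exact MeasurableSet.iInter fun i => measurableSet_lt measurable_const (measurable_pi_apply i)

lemma measurable_localDisc {d N : ℕ} (x : Fin N → Fin d → ℝ) : Measurable (localDisc x) := by
  unfold localDisc
  refine Measurable.sub ((measurable_count x).div_const _) ?_
  exact Finset.measurable_prod _ fun i _ => measurable_pi_apply i

lemma prod_mem {d : ℕ} {t : Fin d → ℝ} (ht : t ∈ Icc (0 : Fin d → ℝ) 1) :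
    0 ≤ ∏ i, t i ∧ ∏ i, t i ≤ 1 :=
  ⟨Finset.prod_nonneg fun i _ => ht.1 i, Finset.prod_le_one (fun i _ => ht.1 i) fun i _ => ht.2 i⟩

lemma integrable_localDisc {d N : ℕ} (x : Fin N → Fin d → ℝ) :
    IntegrableOn (fun t => |localDisc x t|) (Icc (0 : Fin d → ℝ) 1) := by
  have := finite_vol d
  refine Integrable.of_bound (C := 2) ((measurable_localDisc x).abs.aestronglyMeasurable) ?_
  refine (ae_restrict_mem measurableSet_Icc).mono fun t ht => ?_
  rw [Real.norm_eq_abs, abs_abs]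
  obtain ⟨h0, h1⟩ := prod_mem ht
  have hc : (Nat.card {k : Fin N // ∀ i, x k i < t i} : ℝ) / N ≤ 1 := by
    refine div_le_one_of_le₀ ?_ (Nat.cast_nonneg _)
    have : Nat.card {k : Fin N // ∀ i, x k i < t i} ≤ Nat.card (Fin N) :=
      Nat.card_le_card_of_injective _ Subtype.val_injective
    rw [Nat.card_fin] at this
    exact_mod_cast this
  have hc0 : 0 ≤ (Nat.card {k : Fin N // ∀ i, x k i < t i} : ℝ) / N := by positivity
  unfold localDisc
  rw [abs_le]
  constructor <;> linarith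

/-- The key pointwise inequality. -/
lemma key (a N : ℕ) {T s : ℝ} (hN : 1 ≤ N) (hT : 0 ≤ T) (hs0 : 0 < s) (hs1 : s ≤ 1) :
    T - (N : ℝ) ^ s * T ^ (1 + s) ≤ |(a : ℝ) / N - T| := by
  have hNr : (0 : ℝ) < N := by exact_mod_cast hN
  set x : ℝ := N * T with hx
  have hx0 : 0 ≤ x := by positivity
  have e1 : (a : ℝ) / N - T = (a - x) / N := by rw [hx]; field_simp
  have e2 : T - (N : ℝ) ^ s * T ^ (1 + s) = (x - x ^ (1 + s)) / N := by
    rw [hx, Real.mul_rpow hNr.le hT, Real.rpow_add hNr, Real.rpow_one]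
    field_simp
  rw [e1, e2, abs_div, abs_of_pos hNr]
  refine div_le_div_of_nonneg_right ?_ hNr.le
  rcases le_or_gt 1 x with h1 | h1
  · have : x ^ (1:ℝ) ≤ x ^ (1 + s) := Real.rpow_le_rpow_of_exponent_le h1 (by linarith)
    rw [Real.rpow_one] at this
    linarith [abs_nonneg ((a : ℝ) - x)]
  · rcases Nat.eq_zero_or_pos a with rfl | ha
    · rw [Nat.cast_zero, zero_sub, abs_neg, abs_of_nonneg hx0]
      have : 0 ≤ x ^ (1 + s) := Real.rpow_nonneg hx0 _
      linarith
    · have ha' : (1 : ℝ) ≤ a := by exact_mod_cast ha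
      rw [abs_of_pos (by linarith)]
      rcases hx0.lt_or_eq with hxp | hxz
      · have h2 : x ^ (1 + s) = x * x ^ s := by rw [Real.rpow_add hxp, Real.rpow_one]
        have h3 : x ^ (1 : ℝ) ≤ x ^ s := Real.rpow_le_rpow_of_exponent_ge hxp h1.le hs1
        rw [Real.rpow_one] at h3
        rw [h2]
        nlinarith
      · rw [← hxz]
        have : (0:ℝ) ≤ (0:ℝ) ^ (1 + s) := Real.rpow_nonneg le_rfl _
        linarith

lemma integrable_prod_rpow {s : ℝ} (hs : 0 ≤ s) (d : ℕ) :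
    IntegrableOn (fun t : Fin d → ℝ => ∏ i, (t i) ^ s) (Icc (0 : Fin d → ℝ) 1) := by
  have := finite_vol d
  refine Integrable.of_bound (C := 1) ?_ ?_
  · exact (Finset.measurable_prod _ fun i _ =>
      (measurable_pi_apply i).pow_const s).aestronglyMeasurable
  · refine (ae_restrict_mem measurableSet_Icc).mono fun t ht => ?_
    rw [Real.norm_eq_abs, abs_of_nonneg (Finset.prod_nonneg fun i _ =>
      Real.rpow_nonneg (ht.1 i) _)]
    exact Finset.prod_le_one (fun i _ => Real.rpow_nonneg (ht.1 i) _)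
      fun i _ => Real.rpow_le_one (ht.1 i) (ht.2 i) hs

/-- The lower bound for the `L_1`-discrepancy of every `N`-point set. -/
lemma L1Disc_lower {d N : ℕ} (hN : 1 ≤ N) (x : Fin N → Fin d → ℝ) {s : ℝ} (hs0 : 0 < s)
    (hs1 : s ≤ 1) :
    (1 / 2) ^ d - (N : ℝ) ^ s * (1 / (2 + s)) ^ d ≤ L1Disc x := by
  unfold L1Disc
  have h1 : IntegrableOn (fun t : Fin d → ℝ => ∏ i, t i) (Icc (0 : Fin d → ℝ) 1) := by
    have := integrable_prod_rpow (s := 1) zero_le_one d
    simpa using this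
  have h2 := integrable_prod_rpow (s := 1 + s) (by linarith) d
  have e : (1 / 2) ^ d - (N : ℝ) ^ s * (1 / (2 + s)) ^ d =
      ∫ t in Icc (0 : Fin d → ℝ) 1, ((∏ i, t i) - (N : ℝ) ^ s * ∏ i, (t i) ^ (1 + s)) := by
    rw [integral_sub h1 (h2.const_mul _), integral_prod, integral_const_mul,
      integral_prod_rpow (by linarith)]
    congr 4
    ring
  rw [e]
  refine setIntegral_mono_on (h1.sub (h2.const_mul _)) (integrable_localDisc x) measurableSet_Icc ?_
  intro t ht
  have h3 := key (Nat.card {k : Fin N // ∀ i, x k i < t i}) N hN (prod_mem ht).1 hs0 hs1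
  rw [← Real.finsetProd_rpow _ _ (fun i _ => ht.1 i)] at h3
  exact h3

lemma disc_zero (d : ℕ) : disc 0 d = (1 / 2) ^ d := by
  unfold disc
  have h : ∀ x : {x : Fin 0 → Fin d → ℝ // ∀ k i, x k i ∈ Ico (0 : ℝ) 1},
      L1Disc x.1 = (1 / 2) ^ d := by
    intro x
    unfold L1Disc
    rw [← integral_prod]
    refine setIntegral_congr_fun measurableSet_Icc fun t ht => ?_
    have h0 := (prod_mem ht).1
    simp only [localDisc, Nat.cast_zero, div_zero, zero_sub, abs_neg]
    exact abs_of_nonneg h0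
  have hne : Nonempty {x : Fin 0 → Fin d → ℝ // ∀ k i, x k i ∈ Ico (0 : ℝ) 1} :=
    ⟨⟨fun k => k.elim0, fun k => k.elim0⟩⟩
  simp_rw [h]
  exact ciInf_const

lemma disc_lower {d N : ℕ} (hN : 1 ≤ N) {s : ℝ} (hs0 : 0 < s) (hs1 : s ≤ 1) :
    (1 / 2) ^ d - (N : ℝ) ^ s * (1 / (2 + s)) ^ d ≤ disc N d := by
  have hne : Nonempty {x : Fin N → Fin d → ℝ // ∀ k i, x k i ∈ Ico (0 : ℝ) 1} :=
    ⟨⟨fun _ _ => 0, fun _ _ => by simp⟩⟩
  exact le_ciInf fun x => L1Disc_lower hN x.1 hs0 hs1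

/-- If `N` points reduce the initial discrepancy by the factor `ε`, then
`N ^ s ≥ (1 - ε) (1 + s / 2) ^ d`. -/
lemma bound_of_le {d N : ℕ} {ε : ℝ} (hε1 : ε < 1) {s : ℝ} (hs0 : 0 < s)
    (hs1 : s ≤ 1) (h : disc N d ≤ ε * disc 0 d) :
    1 ≤ N ∧ (1 - ε) * (1 + s / 2) ^ d ≤ (N : ℝ) ^ s := by
  have hpos : (0 : ℝ) < (1 / 2) ^ d := by positivity
  have hN : 1 ≤ N := by
    by_contra hc
    have : N = 0 := by omega
    subst this
    rw [disc_zero] at h
    nlinarith
  refine ⟨hN, ?_⟩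
  have h1 := (disc_lower (d := d) hN hs0 hs1).trans h
  rw [disc_zero] at h1
  have h2 : (1 / 2 : ℝ) ^ d = (1 + s / 2) ^ d * (1 / (2 + s)) ^ d := by
    rw [← mul_pow]
    congr 1
    field_simp
  have h3 : (0 : ℝ) < (1 / (2 + s)) ^ d := by positivity
  have h4 : ((1 - ε) * (1 + s / 2) ^ d) * (1 / (2 + s)) ^ d ≤ (N : ℝ) ^ s * (1 / (2 + s)) ^ d := by
    calc ((1 - ε) * (1 + s / 2) ^ d) * (1 / (2 + s)) ^ d = (1 - ε) * (1 / 2) ^ d := by
          rw [h2]; ring
      _ ≤ _ := by linarith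
  exact le_of_mul_le_mul_right h4 h3

/-- For `C < √e` there is `s ∈ (0,1]` with `C ^ s < 1 + s / 2`. -/
lemma exists_s {C : ℝ} (hC0 : 0 < C) (hC : C < Real.exp (1 / 2)) :
    ∃ s : ℝ, 0 < s ∧ s ≤ 1 ∧ C ^ s < 1 + s / 2 := by
  have hL : Real.log C < 1 / 2 := by
    rw [Real.log_lt_iff_lt_exp hC0]; exact hC
  set L := Real.log C with hLdef
  set s : ℝ := min 1 (1 / 2 - L) with hs
  have hs0 : 0 < s := lt_min one_pos (by linarith)
  have hs1 : s ≤ 1 := min_le_left _ _
  have hs2 : s ≤ 1 / 2 - L := min_le_right _ _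
  refine ⟨s, hs0, hs1, ?_⟩
  have h1 : C ^ s = Real.exp (L * s) := by rw [Real.rpow_def_of_pos hC0]
  -- `exp (-(L s)) > (1 + s/2)⁻¹`, via `exp y ≥ 1 + y` for `y = s/2 - L s - ...`
  have h2 : Real.exp (s / 2 - s ^ 2 / 4) ≤ 1 + s / 2 := by
    have h3 : s / 2 - s ^ 2 / 4 ≤ 1 - (1 + s / 2)⁻¹ := by
      have : 0 < 1 + s / 2 := by linarith
      have h7 : (1 + s / 2)⁻¹ ≤ 1 - (s / 2 - s ^ 2 / 4) := by
        rw [inv_le_iff_one_le_mul₀ this]
        nlinarith [pow_pos hs0 3]
      linarith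
    have h4 : Real.exp (1 - (1 + s / 2)⁻¹) ≤ 1 + s / 2 := by
      have h5 : 0 < 1 + s / 2 := by linarith
      have h6 := Real.one_sub_inv_le_log_of_pos h5
      calc Real.exp (1 - (1 + s / 2)⁻¹) ≤ Real.exp (Real.log (1 + s / 2)) := Real.exp_le_exp.2 h6
        _ = 1 + s / 2 := Real.exp_log h5
    exact (Real.exp_le_exp.2 h3).trans h4
  rw [h1]
  refine lt_of_lt_of_le (Real.exp_lt_exp.2 ?_) h2
  nlinarith

/-- Exponential lower bound for the inverse, for every base below `√e`. -/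
lemma inv_lower {C : ℝ} (hC0 : 0 ≤ C) (hC : C < Real.exp (1 / 2)) {ε : ℝ} (hε1 : ε < 1) :
    ∀ᶠ d : ℕ in atTop, ∀ N : ℕ, disc N d ≤ ε * disc 0 d → C ^ d ≤ N := by
  -- we may assume `1 ≤ C`
  wlog hC1 : 1 ≤ C generalizing C with H
  · have h1 : (1 : ℝ) < Real.exp (1 / 2) := by
      have := Real.add_one_lt_exp (x := 1 / 2) (by norm_num)
      linarith
    filter_upwards [H zero_le_one h1 le_rfl] with d hd N hN
    have h2 := hd N hN
    rw [one_pow] at h2
    push Not at hC1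
    exact (pow_le_one₀ hC0 hC1.le).trans h2
  replace hC0 : 0 < C := by linarith
  obtain ⟨s, hs0, hs1, hs⟩ := exists_s hC0 hC
  have hCs : 0 < C ^ s := Real.rpow_pos_of_pos hC0 _
  have hr : 1 < (1 + s / 2) / C ^ s := by rw [one_lt_div hCs]; exact hs
  have hlim := tendsto_pow_atTop_atTop_of_one_lt hr
  filter_upwards [hlim.eventually_ge_atTop (1 / (1 - ε))] with d hd N hN
  obtain ⟨hN1, h1⟩ := bound_of_le hε1 hs0 hs1 hN
  have h2 : (C ^ d) ^ s ≤ (N : ℝ) ^ s := by
    refine le_trans ?_ h1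
    rw [div_pow, div_le_div_iff₀ (by linarith) (by positivity)] at hd
    have e : (C ^ d) ^ s = (C ^ s) ^ d := by
      rw [← Real.rpow_natCast, ← Real.rpow_mul hC0.le, mul_comm, Real.rpow_mul hC0.le,
        Real.rpow_natCast]
    rw [e]
    linarith
  exact (Real.rpow_le_rpow_iff (by positivity) (Nat.cast_nonneg _) hs0).1 h2


/-! ## The matching upper bound: uniform random points -/

/-- The uniform distribution on `[0,1)^d`. -/
noncomputable def cub (d : ℕ) : Measure (Fin d → ℝ) :=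
  Measure.pi (fun _ : Fin d => (volume : Measure ℝ).restrict (Ico 0 1))

instance prob1 : IsProbabilityMeasure ((volume : Measure ℝ).restrict (Ico 0 1)) :=
  ⟨by rw [Measure.restrict_apply MeasurableSet.univ, univ_inter, Real.volume_Ico]; simp⟩

instance prob_cub (d : ℕ) : IsProbabilityMeasure (cub d) := by
  unfold cub; infer_instance

/-- The indicator of the box `[0,t)`. -/
noncomputable def ind {d : ℕ} (t y : Fin d → ℝ) : ℝ :=
  Set.indicator {y : Fin d → ℝ | ∀ i, y i < t i} (fun _ => (1 : ℝ)) y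

lemma meas_set {d : ℕ} (t : Fin d → ℝ) : MeasurableSet {y : Fin d → ℝ | ∀ i, y i < t i} := by
  have : {y : Fin d → ℝ | ∀ i, y i < t i} = ⋂ i, {y : Fin d → ℝ | y i < t i} := by
    ext t; simp
  rw [this]
  exact MeasurableSet.iInter fun i => measurableSet_lt (measurable_pi_apply i) measurable_const

lemma ind_meas {d : ℕ} (t : Fin d → ℝ) : Measurable (ind t) :=
  Measurable.indicator measurable_const (meas_set t)

lemma ind_nonneg {d : ℕ} (t y : Fin d → ℝ) : 0 ≤ ind t y :=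
  Set.indicator_nonneg (fun _ _ => zero_le_one) y

lemma ind_le_one {d : ℕ} (t y : Fin d → ℝ) : ind t y ≤ 1 := by
  unfold ind
  rw [Set.indicator_apply]
  split_ifs <;> norm_num

lemma integral_ind {d : ℕ} {t : Fin d → ℝ} (ht : t ∈ Icc (0 : Fin d → ℝ) 1) :
    ∫ y, ind t y ∂(cub d) = ∏ i, t i := by
  unfold ind
  rw [integral_indicator_const _ (meas_set t)]
  have h : {y : Fin d → ℝ | ∀ i, y i < t i} = Set.univ.pi (fun i => Iio (t i)) := by
    ext y; simp
  rw [h, smul_eq_mul, mul_one, Measure.real, cub, Measure.pi_pi, ENNReal.toReal_prod]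
  refine Finset.prod_congr rfl fun i _ => ?_
  rw [Measure.restrict_apply measurableSet_Iio]
  have h1 : Iio (t i) ∩ Ico 0 1 = Ico 0 (t i) := by
    ext y
    simp only [mem_inter_iff, mem_Iio, mem_Ico]
    have := ht.2 i
    simp only [Pi.one_apply] at this
    constructor
    · rintro ⟨h1, h2, h3⟩; exact ⟨h2, h1⟩
    · rintro ⟨h1, h2⟩; exact ⟨h2, h1, by linarith⟩
  rw [h1, Real.volume_Ico, sub_zero, ENNReal.toReal_ofReal (ht.1 i)]

/-- `N` independent uniform points. -/
noncomputable def pts (N d : ℕ) : Measure (Fin N → Fin d → ℝ) :=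
  Measure.pi (fun _ : Fin N => cub d)

instance prob_pts (N d : ℕ) : IsProbabilityMeasure (pts N d) := by
  unfold pts; infer_instance

lemma count_eq {d N : ℕ} (x : Fin N → Fin d → ℝ) (t : Fin d → ℝ) :
    (Nat.card {k : Fin N // ∀ i, x k i < t i} : ℝ) = ∑ k : Fin N, ind t (x k) := by
  classical
  rw [Nat.card_eq_fintype_card, Fintype.card_subtype, Finset.card_filter]
  push_cast
  refine Finset.sum_congr rfl fun k _ => ?_
  simp [ind, Set.indicator_apply]

lemma integral_comp_eval {N d : ℕ} (k : Fin N) {g : (Fin d → ℝ) → ℝ} (hg : Measurable g) :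
    ∫ x, g (x k) ∂(pts N d) = ∫ y, g y ∂(cub d) := by
  have h := measurePreserving_eval (fun _ : Fin N => cub d) k
  have h2 := MeasureTheory.integral_map (μ := pts N d) h.measurable.aemeasurable
    (f := g) (by exact hg.aestronglyMeasurable)
  rw [show Measure.map (Function.eval k) (pts N d) = cub d from h.map_eq] at h2
  rw [h2]

lemma memLp_ind {N d : ℕ} (t : Fin d → ℝ) (k : Fin N) :
    MemLp (fun x : Fin N → Fin d → ℝ => ind t (x k)) 2 (pts N d) := by
  refine MemLp.of_bound (((ind_meas t).comp (measurable_pi_apply k)).aestronglyMeasurable) 1 ?_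
  refine Filter.Eventually.of_forall fun x => ?_
  rw [Real.norm_eq_abs, abs_of_nonneg (ind_nonneg _ _)]
  exact ind_le_one _ _

open ProbabilityTheory in
lemma variance_count {N d : ℕ} {t : Fin d → ℝ} (ht : t ∈ Icc (0 : Fin d → ℝ) 1) :
    ∫ x, ((∑ k : Fin N, ind t (x k)) - N * ∏ i, t i) ^ 2 ∂(pts N d) ≤ N * ∏ i, t i := by
  have hind : iIndepFun (fun (k : Fin N) (x : Fin N → Fin d → ℝ) => ind t (x k)) (pts N d) :=
    iIndepFun_pi (μ := fun _ : Fin N => cub d) (X := fun _ y => ind t y)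
      fun _ => (ind_meas t).aemeasurable
  have hvs := IndepFun.variance_sum (s := Finset.univ)
    (X := fun (k : Fin N) (x : Fin N → Fin d → ℝ) => ind t (x k)) (μ := pts N d)
    (fun k _ => memLp_ind t k) (fun i _ j _ hij => hind.indepFun hij)
  have hmean : ∀ k : Fin N, ∫ x, ind t (x k) ∂(pts N d) = ∏ i, t i := by
    intro k
    rw [integral_comp_eval k (ind_meas t), integral_ind ht]
  have hvar1 : ∀ k : Fin N, Var[fun x : Fin N → Fin d → ℝ => ind t (x k); pts N d] ≤
      ∏ i, t i := by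
    intro k
    rw [variance_eq_sub (memLp_ind t k)]
    have h1 : ∫ x : Fin N → Fin d → ℝ, ((fun x : Fin N → Fin d → ℝ => ind t (x k)) ^ 2) x
        ∂(pts N d) = ∏ i, t i := by
      rw [← hmean k]
      refine integral_congr_ae (Filter.Eventually.of_forall fun x => ?_)
      simp only [Pi.pow_apply, ind, Set.indicator_apply]
      split_ifs <;> norm_num
    rw [h1]
    nlinarith [sq_nonneg (∫ x : Fin N → Fin d → ℝ, ind t (x k) ∂(pts N d))]
  have hint : ∀ k : Fin N, Integrable (fun x : Fin N → Fin d → ℝ => ind t (x k)) (pts N d) :=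
    fun k => (memLp_ind t k).integrable (by norm_num)
  have hm : ∫ x, (∑ k : Fin N, ind t (x k)) ∂(pts N d) = N * ∏ i, t i := by
    rw [integral_finsetSum _ fun k _ => hint k]
    simp [hmean]
  have hv : Var[∑ k : Fin N, fun x : Fin N → Fin d → ℝ => ind t (x k); pts N d] =
      ∫ x, ((∑ k : Fin N, ind t (x k)) - N * ∏ i, t i) ^ 2 ∂(pts N d) := by
    rw [variance_eq_integral]
    · have e : ∀ x, (∑ k : Fin N, fun x : Fin N → Fin d → ℝ => ind t (x k)) x =
          ∑ k : Fin N, ind t (x k) := fun x => by simp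
      simp_rw [e, hm]
    · exact (Finset.aemeasurable_sum _ fun k _ =>
        ((ind_meas t).comp (measurable_pi_apply k)).aemeasurable)
  rw [← hv, hvs]
  calc ∑ k : Fin N, Var[fun x : Fin N → Fin d → ℝ => ind t (x k); pts N d]
      ≤ ∑ k : Fin N, ∏ i, t i := Finset.sum_le_sum fun k _ => hvar1 k
    _ = N * ∏ i, t i := by simp

lemma localDisc_eq {d N : ℕ} (x : Fin N → Fin d → ℝ) (t : Fin d → ℝ) :
    localDisc x t = (∑ k : Fin N, ind t (x k)) / N - ∏ i, t i := by
  unfold localDisc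
  rw [count_eq]

lemma localDisc_bound {d N : ℕ} (x : Fin N → Fin d → ℝ) {t : Fin d → ℝ}
    (ht : t ∈ Icc (0 : Fin d → ℝ) 1) : |localDisc x t| ≤ 2 := by
  obtain ⟨h0, h1⟩ := prod_mem ht
  have hc : (Nat.card {k : Fin N // ∀ i, x k i < t i} : ℝ) / N ≤ 1 := by
    refine div_le_one_of_le₀ ?_ (Nat.cast_nonneg _)
    have : Nat.card {k : Fin N // ∀ i, x k i < t i} ≤ Nat.card (Fin N) :=
      Nat.card_le_card_of_injective _ Subtype.val_injective
    rw [Nat.card_fin] at this
    exact_mod_cast this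
  have hc0 : 0 ≤ (Nat.card {k : Fin N // ∀ i, x k i < t i} : ℝ) / N := by positivity
  unfold localDisc
  rw [abs_le]
  constructor <;> linarith

lemma meas_localDisc_left {d N : ℕ} (t : Fin d → ℝ) :
    Measurable (fun x : Fin N → Fin d → ℝ => localDisc x t) := by
  simp_rw [localDisc_eq]
  refine Measurable.sub (Measurable.div_const ?_ _) measurable_const
  exact Finset.measurable_sum _ fun k _ => (ind_meas t).comp (measurable_pi_apply k)

/-- For fixed `t` the mean of the absolute local discrepancy of random points. -/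
lemma mean_bound {d N : ℕ} (hN : 1 ≤ N) {t : Fin d → ℝ} (ht : t ∈ Icc (0 : Fin d → ℝ) 1)
    {l : ℝ} (hl0 : 0 < l) (hl1 : l ≤ 1) :
    ∫ x, |localDisc x t| ∂(pts N d) ≤
      2 * (N : ℝ) ^ (-(l / 2)) * ∏ i, (t i) ^ (1 - l / 2) := by
  have hNr : (0 : ℝ) < N := by exact_mod_cast hN
  set T := ∏ i, t i with hT
  obtain ⟨hT0, hT1⟩ := prod_mem ht
  have hbd : ∀ x : Fin N → Fin d → ℝ, |localDisc x t| ≤ 2 := fun x => localDisc_bound x ht
  have hintabs : Integrable (fun x : Fin N → Fin d → ℝ => |localDisc x t|) (pts N d) :=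
    Integrable.of_bound ((meas_localDisc_left t).abs.aestronglyMeasurable) 2
      (Filter.Eventually.of_forall fun x => by
        rw [Real.norm_eq_abs, abs_abs]; exact hbd x)
  have hint : ∀ k : Fin N, Integrable (fun x : Fin N → Fin d → ℝ => ind t (x k)) (pts N d) :=
    fun k => (memLp_ind t k).integrable (by norm_num)
  -- first bound
  have h1 : ∫ x, |localDisc x t| ∂(pts N d) ≤ 2 * T := by
    have h2 : ∫ x, ((∑ k : Fin N, ind t (x k)) / N + T) ∂(pts N d) = 2 * T := by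
      rw [integral_add ((integrable_finsetSum _ fun k _ => hint k).div_const _)
        (integrable_const _), integral_div, integral_finsetSum _ fun k _ => hint k]
      have h3 : ∀ k : Fin N, ∫ x, ind t (x k) ∂(pts N d) = T := by
        intro k
        rw [integral_comp_eval k (ind_meas t), integral_ind ht]
      simp only [h3, Finset.sum_const, Finset.card_univ, Fintype.card_fin, nsmul_eq_mul,
        integral_const, probReal_univ, one_smul]
      field_simp
      ring
    rw [← h2]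
    refine integral_mono hintabs
      (((integrable_finsetSum _ fun k _ => hint k).div_const _).add (integrable_const _)) ?_
    intro x
    simp only
    rw [localDisc_eq]
    have h4 : 0 ≤ (∑ k : Fin N, ind t (x k)) / N :=
      div_nonneg (Finset.sum_nonneg fun k _ => ind_nonneg _ _) hNr.le
    rw [abs_le]
    constructor <;> linarith
  -- second bound
  have h5 : (∫ x, |localDisc x t| ∂(pts N d)) ^ 2 ≤ T / N := by
    have hmem : MemLp (fun x : Fin N → Fin d → ℝ => |localDisc x t|) 2 (pts N d) :=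
      MemLp.of_bound ((meas_localDisc_left t).abs.aestronglyMeasurable) 2
        (Filter.Eventually.of_forall fun x => by
          rw [Real.norm_eq_abs, abs_abs]; exact hbd x)
    have h6 := ProbabilityTheory.variance_nonneg
      (fun x : Fin N → Fin d → ℝ => |localDisc x t|) (pts N d)
    rw [ProbabilityTheory.variance_eq_sub hmem] at h6
    have h7 : ∫ x : Fin N → Fin d → ℝ, ((fun x : Fin N → Fin d → ℝ => |localDisc x t|) ^ 2) x
        ∂(pts N d) ≤ T / N := by
      have h8 := variance_count (N := N) ht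
      rw [← hT] at h8
      have h9 : ∀ x : Fin N → Fin d → ℝ,
          ((fun x : Fin N → Fin d → ℝ => |localDisc x t|) ^ 2) x =
          ((∑ k : Fin N, ind t (x k)) - N * T) ^ 2 / (N : ℝ) ^ 2 := by
        intro x
        simp only [Pi.pow_apply, sq_abs]
        rw [localDisc_eq, ← hT]
        field_simp
      simp_rw [h9]
      rw [integral_div, div_le_div_iff₀ (by positivity) hNr]
      calc (∫ x, ((∑ k : Fin N, ind t (x k)) - N * T) ^ 2 ∂(pts N d)) * N
          ≤ (N * T) * N := mul_le_mul_of_nonneg_right h8 hNr.le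
        _ = T * (N : ℝ) ^ 2 := by ring
    linarith
  set I := ∫ x, |localDisc x t| ∂(pts N d) with hI
  have hI0 : 0 ≤ I := integral_nonneg fun x => abs_nonneg _
  -- interpolation
  rw [Real.finsetProd_rpow _ _ (fun i _ => ht.1 i), ← hT]
  rcases hT0.lt_or_eq with hTp | hTz
  · rcases hI0.lt_or_eq with hIp | hIz
    · have e1 : I = I ^ (1 - l) * (I ^ 2) ^ (l / 2) := by
        rw [← Real.rpow_natCast I 2, ← Real.rpow_mul hI0, ← Real.rpow_add hIp,
          show 1 - l + ((2 : ℕ) : ℝ) * (l / 2) = 1 by push_cast; ring, Real.rpow_one]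
      have h10 : I ^ (1 - l) ≤ (2 * T) ^ (1 - l) :=
        Real.rpow_le_rpow hI0 h1 (by linarith)
      have h11 : (I ^ 2) ^ (l / 2) ≤ (T / N) ^ (l / 2) :=
        Real.rpow_le_rpow (by positivity) h5 (by linarith)
      have h12 : (2 : ℝ) ^ (1 - l) ≤ 2 := by
        have := Real.rpow_le_rpow_of_exponent_le (x := 2) (by norm_num)
          (show 1 - l ≤ 1 by linarith)
        rwa [Real.rpow_one] at this
      calc I = I ^ (1 - l) * (I ^ 2) ^ (l / 2) := e1
        _ ≤ (2 * T) ^ (1 - l) * (T / N) ^ (l / 2) := by gcongr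
        _ = 2 ^ (1 - l) * (N : ℝ) ^ (-(l / 2)) * T ^ (1 - l / 2) := by
          rw [Real.mul_rpow (by norm_num) hT0, Real.div_rpow hT0 hNr.le, Real.rpow_neg hNr.le,
            show (1 - l / 2) = (1 - l) + l / 2 by ring, Real.rpow_add hTp]
          field_simp
        _ ≤ 2 * (N : ℝ) ^ (-(l / 2)) * T ^ (1 - l / 2) := by gcongr
    · rw [← hIz]; positivity
  · have hT0' : T = 0 := hTz.symm
    have : I ≤ 0 := by rw [hT0'] at h1; simpa using h1
    refine this.trans ?_
    positivity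

lemma disc_upper {d N : ℕ} (hN : 1 ≤ N) {l : ℝ} (hl0 : 0 < l) (hl1 : l ≤ 1) :
    disc N d ≤ 2 * (N : ℝ) ^ (-(l / 2)) * (1 / (2 - l / 2)) ^ d := by
  -- joint measurability
  have hjm : Measurable (fun q : (Fin N → Fin d → ℝ) × (Fin d → ℝ) => localDisc q.1 q.2) := by
    have e : (fun q : (Fin N → Fin d → ℝ) × (Fin d → ℝ) => localDisc q.1 q.2) =
        fun q => (∑ k : Fin N, Set.indicator
          {q : (Fin N → Fin d → ℝ) × (Fin d → ℝ) | ∀ i, q.1 k i < q.2 i} (fun _ => (1 : ℝ)) q) / N -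
            ∏ i, q.2 i := by
      funext q
      rw [localDisc_eq]
      congr 2
    rw [e]
    refine Measurable.sub (Measurable.div_const ?_ _) ?_
    · refine Finset.measurable_sum _ fun k _ => Measurable.indicator measurable_const ?_
      have : {q : (Fin N → Fin d → ℝ) × (Fin d → ℝ) | ∀ i, q.1 k i < q.2 i} =
          ⋂ i, {q : (Fin N → Fin d → ℝ) × (Fin d → ℝ) | q.1 k i < q.2 i} := by
        ext q; simp
      rw [this]
      refine MeasurableSet.iInter fun i => measurableSet_lt ?_ ?_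
      · exact (measurable_pi_apply i).comp ((measurable_pi_apply k).comp measurable_fst)
      · exact (measurable_pi_apply i).comp measurable_snd
    · exact Finset.measurable_prod _ fun i _ => (measurable_pi_apply i).comp measurable_snd
  have := finite_vol d
  have hint : Integrable (Function.uncurry fun (x : Fin N → Fin d → ℝ) (t : Fin d → ℝ) =>
      |localDisc x t|) ((pts N d).prod ((volume : Measure (Fin d → ℝ)).restrict (Icc 0 1))) := by
    refine Integrable.of_bound (C := 2) hjm.abs.aestronglyMeasurable ?_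
    have h1 : ∀ᵐ q ∂((pts N d).prod ((volume : Measure (Fin d → ℝ)).restrict (Icc 0 1))),
        q.2 ∈ Icc (0 : Fin d → ℝ) 1 := by
      have h2 : MeasurableSet {q : (Fin N → Fin d → ℝ) × (Fin d → ℝ) |
          q.2 ∈ Icc (0 : Fin d → ℝ) 1} := measurable_snd measurableSet_Icc
      rw [Measure.ae_prod_iff_ae_ae h2]
      exact Filter.Eventually.of_forall fun x => ae_restrict_mem measurableSet_Icc
    filter_upwards [h1] with q hq
    simp only [Function.uncurry]
    rw [Real.norm_eq_abs, abs_abs]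
    exact localDisc_bound q.1 hq
  have hswap := integral_integral_swap hint
  -- a good point set
  have hint1 : Integrable (fun x : Fin N → Fin d → ℝ => L1Disc x) (pts N d) := hint.integral_prod_left
  have hnull : (pts N d) {x | ∀ k i, x k i ∈ Ico (0 : ℝ) 1}ᶜ = 0 := by
    have h2 : ∀ᵐ x ∂(pts N d), ∀ k i, x k i ∈ Ico (0 : ℝ) 1 := by
      rw [ae_all_iff]
      intro k
      have h3 : ∀ᵐ y ∂(cub d), ∀ i, y i ∈ Ico (0 : ℝ) 1 := by
        rw [ae_all_iff]
        intro i
        have h4 := (measurePreserving_eval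
          (fun _ : Fin d => (volume : Measure ℝ).restrict (Ico 0 1)) i).quasiMeasurePreserving
        exact h4.ae (ae_restrict_mem measurableSet_Ico)
      exact (measurePreserving_eval (fun _ : Fin N => cub d) k).quasiMeasurePreserving.ae h3
    exact h2
  obtain ⟨x, hx, hxle⟩ := exists_notMem_null_le_integral hint1 hnull
  rw [mem_compl_iff, not_not] at hx
  have hbdd : BddBelow (Set.range fun x : {x : Fin N → Fin d → ℝ // ∀ k i, x k i ∈ Ico (0 : ℝ) 1} =>
      L1Disc x.1) := ⟨0, by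
    rintro _ ⟨x, rfl⟩
    exact integral_nonneg fun t => abs_nonneg _⟩
  have h3 : disc N d ≤ L1Disc x := ciInf_le hbdd ⟨x, hx⟩
  refine h3.trans (hxle.trans ?_)
  unfold L1Disc
  rw [hswap]
  have h4 := integrable_prod_rpow (s := 1 - l / 2) (by linarith) d
  calc ∫ t in Icc (0 : Fin d → ℝ) 1, ∫ x, |localDisc x t| ∂(pts N d)
      ≤ ∫ t in Icc (0 : Fin d → ℝ) 1, 2 * (N : ℝ) ^ (-(l / 2)) * ∏ i, (t i) ^ (1 - l / 2) := by
        refine setIntegral_mono_on hint.integral_prod_right (h4.const_mul _) measurableSet_Icc ?_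
        intro t ht
        exact mean_bound hN ht hl0 hl1
    _ = 2 * (N : ℝ) ^ (-(l / 2)) * (1 / (2 - l / 2)) ^ d := by
        rw [integral_const_mul, integral_prod_rpow (by linarith)]
        congr 3
        ring


/-- For `C > √e` there is `l ∈ (0,1]` with `C ^ (l / 2) * (1 - l / 4) > 1`. -/
lemma exists_l {C : ℝ} (hC : Real.exp (1 / 2) < C) :
    ∃ l : ℝ, 0 < l ∧ l ≤ 1 ∧ 1 < C ^ (l / 2) * (1 - l / 4) := by
  have hC0 : 0 < C := lt_trans (Real.exp_pos _) hC
  have hL : 1 / 2 < Real.log C := by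
    rw [Real.lt_log_iff_exp_lt hC0]; exact hC
  set L := Real.log C with hLdef
  set l : ℝ := min 1 (L - 1 / 2) with hl
  have hl0 : 0 < l := lt_min (by norm_num) (by linarith)
  have hl1 : l ≤ 1 := min_le_left _ _
  have hl2 : l ≤ L - 1 / 2 := min_le_right _ _
  refine ⟨l, hl0, hl1, ?_⟩
  have h1 : C ^ (l / 2) = Real.exp (L * (l / 2)) := by rw [Real.rpow_def_of_pos hC0]
  have h5 : 0 < 1 - l / 4 := by linarith
  have h2 : Real.exp (1 - (1 - l / 4)⁻¹) ≤ 1 - l / 4 := by
    have h6 := Real.one_sub_inv_le_log_of_pos h5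
    calc Real.exp (1 - (1 - l / 4)⁻¹) ≤ Real.exp (Real.log (1 - l / 4)) := Real.exp_le_exp.2 h6
      _ = 1 - l / 4 := Real.exp_log h5
  have h3 : (1 - l / 4)⁻¹ ≤ 1 + l / 4 + l ^ 2 / 8 := by
    rw [inv_le_iff_one_le_mul₀ h5]
    nlinarith [pow_pos hl0 2, pow_pos hl0 3, mul_pos hl0 hl0]
  calc (1 : ℝ) < Real.exp (L * (l / 2) + (1 - (1 - l / 4)⁻¹)) := by
        rw [Real.one_lt_exp_iff]
        nlinarith [pow_pos hl0 2]
    _ = C ^ (l / 2) * Real.exp (1 - (1 - l / 4)⁻¹) := by rw [h1, Real.exp_add]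
    _ ≤ C ^ (l / 2) * (1 - l / 4) := by gcongr

/-- Exponential upper bound for the inverse, for every base above `√e`. -/
lemma inv_upper {C : ℝ} (hC : Real.exp (1 / 2) < C) {ε : ℝ} (hε0 : 0 < ε) :
    ∀ᶠ d : ℕ in atTop, ∃ N : ℕ, (N : ℝ) ≤ C ^ d ∧ disc N d ≤ ε * disc 0 d := by
  obtain ⟨C', hC'1, hC'2⟩ := exists_between hC
  obtain ⟨l, hl0, hl1, hl⟩ := exists_l hC'1
  have he : (1 : ℝ) < Real.exp (1 / 2) := by
    have := Real.add_one_lt_exp (x := 1 / 2) (by norm_num)
    linarith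
  have hC'p : 1 < C' := he.trans hC'1
  have hC'0 : 0 < C' := by linarith
  have h1 := tendsto_pow_atTop_atTop_of_one_lt hl
  have h2 : Tendsto (fun d : ℕ => C ^ d - C' ^ d) atTop atTop := by
    have h3 : Tendsto (fun d : ℕ => C' ^ d * ((C / C') ^ d - 1)) atTop atTop := by
      refine Tendsto.atTop_mul_atTop₀ (tendsto_pow_atTop_atTop_of_one_lt hC'p) ?_
      refine tendsto_atTop_add_const_right _ (-1) ?_
      exact tendsto_pow_atTop_atTop_of_one_lt ((one_lt_div hC'0).2 hC'2)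
    refine h3.congr fun d => ?_
    rw [div_pow]
    field_simp
  filter_upwards [h1.eventually_ge_atTop (2 / ε), h2.eventually_ge_atTop 1] with d hd1 hd2
  have hC'd : 1 ≤ C' ^ d := one_le_pow₀ hC'p.le
  refine ⟨⌊C ^ d⌋₊, Nat.floor_le (by linarith), ?_⟩
  set N := ⌊C ^ d⌋₊ with hN
  have hNC : C' ^ d ≤ N := by
    have := Nat.lt_floor_add_one (C ^ d)
    rw [← hN] at this
    linarith
  have hN1 : 1 ≤ N := by
    have : (1 : ℝ) ≤ N := hC'd.trans hNC
    exact_mod_cast this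
  have hNr : (0 : ℝ) < N := by linarith
  refine (disc_upper hN1 hl0 hl1).trans ?_
  rw [disc_zero]
  have h4 : 0 < 1 - l / 4 := by linarith
  have h5 : (1 / (2 - l / 2)) ^ d = (1 / 2) ^ d * ((1 - l / 4) ^ d)⁻¹ := by
    rw [← inv_pow, ← mul_pow]
    congr 1
    have : 2 - l / 2 ≠ 0 := by linarith
    field_simp
    ring
  have h6 : (N : ℝ) ^ (-(l / 2)) ≤ ((C' ^ (l / 2)) ^ d)⁻¹ := by
    rw [Real.rpow_neg hNr.le]
    refine inv_anti₀ (by positivity) ?_
    have e : (C' ^ (l / 2)) ^ d = (C' ^ d) ^ (l / 2) := by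
      rw [← Real.rpow_natCast, ← Real.rpow_natCast, ← Real.rpow_mul hC'0.le, mul_comm,
        Real.rpow_mul hC'0.le]
    rw [e]
    exact Real.rpow_le_rpow (by positivity) hNC (by linarith)
  rw [h5]
  have h7 : 2 * ((C' ^ (l / 2)) ^ d)⁻¹ * ((1 - l / 4) ^ d)⁻¹ ≤ ε := by
    rw [mul_assoc, ← mul_inv, ← mul_pow]
    rw [div_le_iff₀ hε0] at hd1
    have hp : 0 < (C' ^ (l / 2) * (1 - l / 4)) ^ d := by positivity
    rw [← div_eq_mul_inv, div_le_iff₀ hp]
    linarith
  calc 2 * (N : ℝ) ^ (-(l / 2)) * ((1 / 2) ^ d * ((1 - l / 4) ^ d)⁻¹)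
      ≤ 2 * ((C' ^ (l / 2)) ^ d)⁻¹ * ((1 / 2) ^ d * ((1 - l / 4) ^ d)⁻¹) := by gcongr
    _ = (2 * ((C' ^ (l / 2)) ^ d)⁻¹ * ((1 - l / 4) ^ d)⁻¹) * (1 / 2) ^ d := by ring
    _ ≤ ε * (1 / 2) ^ d := by gcongr

/-- The `L_1`-discrepancy suffers from the curse of dimensionality: there are `C > 1` and
`ε₀ ∈ (0,1)` such that for infinitely many `d` and all `ε ∈ (0,ε₀)` the inverse of the minimal
`L_1`-discrepancy is at least `C ^ d`. -/
def SuffersFromCurse : Prop :=
  ∃ C ε₀ : ℝ, 1 < C ∧ 0 < ε₀ ∧ ε₀ < 1 ∧ ∃ᶠ d : ℕ in atTop, ∀ ε : ℝ, 0 < ε → ε < ε₀ →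
    ENNReal.ofReal (C ^ d) ≤ (invDisc ε d : ENNReal)

lemma le_invDisc {C ε : ℝ} {d : ℕ} (h : ∀ N : ℕ, disc N d ≤ ε * disc 0 d → C ≤ N) :
    ENNReal.ofReal C ≤ (invDisc ε d : ENNReal) := by
  unfold invDisc
  by_cases hne : ∃ N : ℕ, disc N d ≤ ε * disc 0 d
  · obtain ⟨N₀, hN₀⟩ := hne
    have h1 : (⌈C⌉₊ : ℕ∞) ≤ ⨅ (N : ℕ) (_ : disc N d ≤ ε * disc 0 d), (N : ℕ∞) := by
      refine le_iInf₂ fun N hN => ?_
      exact_mod_cast Nat.ceil_le.2 (h N hN)
    have h2 : ENNReal.ofReal C ≤ ((⌈C⌉₊ : ℕ∞) : ENNReal) := by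
      rw [ENat.toENNReal_coe]
      refine ENNReal.ofReal_le_of_le_toReal ?_
      rw [ENNReal.toReal_natCast]
      exact Nat.le_ceil C
    exact h2.trans (ENat.toENNReal_le.2 h1)
  · have h3 : (⨅ (N : ℕ) (_ : disc N d ≤ ε * disc 0 d), (N : ℕ∞)) = ⊤ := by
      refine iInf₂_eq_top.2 fun N hN => ?_
      exact absurd ⟨N, hN⟩ hne
    rw [h3]
    simp

lemma invDisc_le {C ε : ℝ} {d N : ℕ} (hN : (N : ℝ) ≤ C) (h : disc N d ≤ ε * disc 0 d) :
    (invDisc ε d : ENNReal) ≤ ENNReal.ofReal C := by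
  unfold invDisc
  have h1 : (⨅ (N : ℕ) (_ : disc N d ≤ ε * disc 0 d), (N : ℕ∞)) ≤ (N : ℕ∞) := iInf₂_le N h
  refine (ENat.toENNReal_le.2 h1).trans ?_
  rw [ENat.toENNReal_coe, ← ENNReal.ofReal_natCast]
  exact ENNReal.ofReal_le_ofReal hN

/-- The exponential rate of the inverse is exactly `√e`, for every `ε ∈ (0,1)`. -/
lemma rate {ε : ℝ} (hε0 : 0 < ε) (hε1 : ε < 1) :
    Tendsto (fun d : ℕ => (invDisc ε d : ENNReal) ^ (1 / (d : ℝ))) atTop
      (nhds (ENNReal.ofReal (Real.exp (1 / 2)))) := by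
  refine tendsto_order.2 ⟨fun a ha => ?_, fun a ha => ?_⟩
  · -- below
    obtain ⟨C, hC1, hC2⟩ : ∃ C : ℝ, a < ENNReal.ofReal C ∧ C < Real.exp (1 / 2) := by
      obtain ⟨b, hb1, hb2⟩ := exists_between ha
      have hbt : b ≠ ⊤ := (hb2.trans ENNReal.ofReal_lt_top).ne
      refine ⟨b.toReal, by rwa [ENNReal.ofReal_toReal hbt], ?_⟩
      rwa [ENNReal.lt_ofReal_iff_toReal_lt hbt] at hb2
    have hC0 : 0 ≤ C := by
      by_contra hneg
      push Not at hneg
      rw [ENNReal.ofReal_of_nonpos hneg.le] at hC1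
      exact absurd hC1 (by simp)
    filter_upwards [inv_lower hC0 hC2 hε1, eventually_ge_atTop 1] with d hd hd1
    have hdr : (0 : ℝ) < d := by exact_mod_cast hd1
    have h1 := le_invDisc hd
    refine lt_of_lt_of_le hC1 ?_
    calc ENNReal.ofReal C = (ENNReal.ofReal (C ^ d)) ^ (1 / (d : ℝ)) := by
          rw [ENNReal.ofReal_pow hC0, ← ENNReal.rpow_natCast, ← ENNReal.rpow_mul,
            mul_one_div_cancel hdr.ne', ENNReal.rpow_one]
      _ ≤ _ := ENNReal.rpow_le_rpow h1 (by positivity)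
  · obtain ⟨C, hC1, hC2⟩ : ∃ C : ℝ, Real.exp (1 / 2) < C ∧ ENNReal.ofReal C < a := by
      obtain ⟨b, hb1, hb2⟩ := exists_between ha
      have hbt : b ≠ ⊤ := (lt_of_lt_of_le hb2 le_top).ne
      refine ⟨b.toReal, ?_, by rwa [ENNReal.ofReal_toReal hbt]⟩
      rwa [ENNReal.ofReal_lt_iff_lt_toReal (Real.exp_pos _).le hbt] at hb1
    have hC0 : 0 ≤ C := (lt_trans (Real.exp_pos _) hC1).le
    filter_upwards [inv_upper hC1 hε0, eventually_ge_atTop 1] with d hd hd1
    have hdr : (0 : ℝ) < d := by exact_mod_cast hd1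
    obtain ⟨N, hN1, hN2⟩ := hd
    have h1 := invDisc_le hN1 hN2
    refine lt_of_le_of_lt ?_ hC2
    calc (invDisc ε d : ENNReal) ^ (1 / (d : ℝ))
        ≤ (ENNReal.ofReal (C ^ d)) ^ (1 / (d : ℝ)) := ENNReal.rpow_le_rpow h1 (by positivity)
      _ = ENNReal.ofReal C := by
          rw [ENNReal.ofReal_pow hC0, ← ENNReal.rpow_natCast, ← ENNReal.rpow_mul,
            mul_one_div_cancel hdr.ne', ENNReal.rpow_one]

/-- **Positive answer to Q1**, with the exact exponential rate: the `L_1`-discrepancy suffers from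
the curse of dimensionality, and for every `ε ∈ (0,1)` the `d`-th root of the inverse of the
minimal `L_1`-discrepancy tends to `√e` as `d → ∞`. -/
theorem result : SuffersFromCurse ∧
    ∀ ε : ℝ, 0 < ε → ε < 1 →
      Tendsto (fun d : ℕ => (invDisc ε d : ENNReal) ^ (1 / (d : ℝ))) atTop
        (nhds (ENNReal.ofReal (Real.exp (1 / 2)))) := by
  refine ⟨⟨6 / 5, 1 / 2, by norm_num, by norm_num, by norm_num, ?_⟩, fun ε h0 h1 => rate h0 h1⟩
  refine Filter.Eventually.frequently ?_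
  filter_upwards [eventually_ge_atTop 4] with d hd ε hε0 hε1
  refine le_invDisc fun N hN => ?_
  obtain ⟨-, h1⟩ := bound_of_le (by linarith) one_pos le_rfl hN
  rw [Real.rpow_one] at h1
  refine le_trans ?_ h1
  have h2 : (2 : ℝ) ≤ (5 / 4) ^ d := by
    calc (2 : ℝ) ≤ (5 / 4) ^ 4 := by norm_num
      _ ≤ (5 / 4) ^ d := pow_le_pow_right₀ (by norm_num) hd
  have h3 : (1 + 1 / 2 : ℝ) ^ d = (5 / 4) ^ d * (6 / 5) ^ d := by
    rw [← mul_pow]; norm_num
  rw [h3]
  have h4 : (0 : ℝ) < (6 / 5) ^ d := by positivity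
  have h5 : 1 ≤ (1 - ε) * (5 / 4) ^ d := by nlinarith
  calc (6 / 5 : ℝ) ^ d = 1 * (6 / 5) ^ d := (one_mul _).symm
    _ ≤ ((1 - ε) * (5 / 4) ^ d) * (6 / 5) ^ d := mul_le_mul_of_nonneg_right h5 h4.le
    _ = (1 - ε) * ((5 / 4) ^ d * (6 / 5) ^ d) := by ring

end Pool.Agent.Results.MP_4b7d36_an.SqrtExpCurse
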